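import Pool.Agent.H37.CNZ.Stmts

set_option autoImplicit false

namespace Pool.CND

open Polynomial

namespace CGAaux

lemma sum_mem {Ω : Type} [Field Ω] (S : Subfield Ω) (Y : Ω) (m : Multiset Ω) :
    (∀ x ∈ m, x - Y ∈ S) → m.sum - (Multiset.card m : Ω) * Y ∈ S := by
  induction m using Multiset.induction_on with
  | empty => intro _; simp
  | cons a m ih =>
    intro h
    rw [Multiset.sum_cons, Multiset.card_cons]
    have h1 := ih fun x hx => h x (Multiset.mem_cons_of_mem hx)
    have h2 := h a (Multiset.mem_cons_self a m)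
    have e : a + m.sum - ((Multiset.card m + 1 : ℕ) : Ω) * Y =
        (a - Y) + (m.sum - (Multiset.card m : Ω) * Y) := by push_cast; ring
    rw [e]
    exact S.add_mem h2 h1

lemma fmonic {L : Type} [Field L] {p : ℕ} (hp : 1 < p) (r : L) :
    (X ^ p - (X + C r) : L[X]).Monic := by
  refine monic_X_pow_sub ?_
  rw [degree_X_add_C]
  exact_mod_cast hp

lemma fdeg {L : Type} [Field L] {p : ℕ} (hp : 1 < p) (r : L) :
    (X ^ p - (X + C r) : L[X]).natDegree = p := by
  have h : (X + C r : L[X]).natDegree < (X ^ p : L[X]).natDegree := by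
    rw [natDegree_X_add_C, natDegree_X_pow]; exact hp
  rw [natDegree_sub_eq_left_of_natDegree_lt h, natDegree_X_pow]

lemma irr {L : Type} [Field L] {p : ℕ} (hp : p.Prime) [CharP L p] (r : L)
    (h : ∀ u : L, u ^ p - u ≠ r) : Irreducible (X ^ p - (X + C r) : L[X]) := by
  haveI : Fact p.Prime := ⟨hp⟩
  have hm := fmonic hp.one_lt r
  have hd := fdeg hp.one_lt r
  obtain ⟨Y, hY⟩ := IsAlgClosed.exists_aeval_eq_zero (AlgebraicClosure L)
    (X ^ p - (X + C r) : L[X]) (by
      rw [degree_eq_natDegree hm.ne_zero, hd]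
      exact_mod_cast hp.ne_zero)
  haveI : CharP (AlgebraicClosure L) p :=
    charP_of_injective_algebraMap (algebraMap L (AlgebraicClosure L)).injective p
  have hint : IsIntegral L Y := Algebra.IsIntegral.isIntegral Y
  have hroot : ∀ x : AlgebraicClosure L, aeval x (X ^ p - (X + C r) : L[X]) = 0 →
      x ^ p = x + algebraMap L _ r := by
    intro x hx
    simp only [map_sub, map_pow, aeval_X, map_add, aeval_C] at hx
    exact sub_eq_zero.1 hx
  have hdvd : minpoly L Y ∣ (X ^ p - (X + C r) : L[X]) := minpoly.dvd L Y hY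
  have hle : (minpoly L Y).natDegree ≤ p := by
    rw [← hd]
    exact natDegree_le_of_dvd hdvd hm.ne_zero
  by_cases hdeg : (minpoly L Y).natDegree = p
  · have e : (X ^ p - (X + C r) : L[X]) = minpoly L Y :=
      (eq_of_monic_of_dvd_of_natDegree_le (minpoly.monic hint) hm hdvd (by rw [hd, hdeg]))
    rw [e]
    exact minpoly.irreducible hint
  · exfalso
    have hlt : (minpoly L Y).natDegree < p := lt_of_le_of_ne hle hdeg
    have hpos : 0 < (minpoly L Y).natDegree := minpoly.natDegree_pos hint
    set S : Subfield (AlgebraicClosure L) := (algebraMap L (AlgebraicClosure L)).fieldRange with hS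
    set Q := (minpoly L Y).map (algebraMap L (AlgebraicClosure L)) with hQ
    have hQm : Q.Monic := (minpoly.monic hint).map _
    have hQs : Q.Splits := IsAlgClosed.splits Q
    have hcard : Multiset.card Q.roots = (minpoly L Y).natDegree := by
      rw [← hQs.natDegree_eq_card_roots, hQ, natDegree_map]
    have hx : ∀ x ∈ Q.roots, x - Y ∈ S := by
      intro x hx
      have h1 : aeval x (minpoly L Y) = 0 := by
        have := (mem_roots'.1 hx).2
        rwa [hQ, IsRoot.def, eval_map_algebraMap] at this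
      have h2 : aeval x (X ^ p - (X + C r) : L[X]) = 0 := by
        obtain ⟨w, hw⟩ := hdvd
        rw [hw, map_mul, h1, zero_mul]
      have h3 : (x - Y) ^ p = x - Y := by
        rw [sub_pow_expChar, hroot x h2, hroot Y hY]
        ring
      have h4 : x - Y ∈ (⊥ : Subfield (AlgebraicClosure L)) :=
        (Subfield.mem_bot_iff_pow_eq_self (AlgebraicClosure L) p).2 h3
      exact (bot_le : (⊥ : Subfield (AlgebraicClosure L)) ≤ S) h4
    have hsum := sum_mem S Y Q.roots hx
    have hnc : Q.roots.sum ∈ S := by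
      have h1 := hQs.nextCoeff_eq_neg_sum_roots_of_monic hQm
      have h2 : Q.roots.sum = algebraMap L _ (-(minpoly L Y).nextCoeff) := by
        rw [map_neg, ← nextCoeff_map (algebraMap L (AlgebraicClosure L)).injective, ← hQ, h1,
          neg_neg]
      rw [h2]
      exact ⟨_, rfl⟩
    rw [hcard] at hsum
    have h5 : (((minpoly L Y).natDegree : ℕ) : AlgebraicClosure L) * Y ∈ S := by
      have := S.sub_mem hnc hsum
      rwa [sub_sub_cancel] at this
    have h6 : (((minpoly L Y).natDegree : ℕ) : AlgebraicClosure L) ≠ 0 := by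
      intro h0
      rw [CharP.cast_eq_zero_iff _ p] at h0
      exact absurd (Nat.le_of_dvd hpos h0) (by omega)
    have h7 : Y ∈ S := by
      have h8 := S.mul_mem (S.inv_mem (natCast_mem S (minpoly L Y).natDegree)) h5
      rwa [inv_mul_cancel_left₀ h6] at h8
    obtain ⟨u, hu⟩ := h7
    apply h u
    have h9 := hroot Y hY
    rw [← hu, ← map_pow, ← map_add] at h9
    have h10 := (algebraMap L (AlgebraicClosure L)).injective h9
    rw [h10]
    ring

end CGAaux

open CGAaux

theorem cga_thm : S_CGA := by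
  intro p k L G _ _ _ _ _ z _ ρ b r hp hk hz hρ hb hbz hr hu
  haveI : Fact p.Prime := ⟨hp⟩
  haveI : CharP k p := hk
  haveI : CharP L p := charP_of_injective_algebraMap (algebraMap k L).injective p
  set f : L[X] := X ^ p - (X + C r) with hf
  have hm : f.Monic := fmonic hp.one_lt r
  have hd : f.natDegree = p := fdeg hp.one_lt r
  haveI : Fact (Irreducible f) := ⟨irr hp r hu⟩
  set A := AdjoinRoot f with hA
  haveI : CharP A p := charP_of_injective_algebraMap (algebraMap L A).injective p
  have hY : (AdjoinRoot.root f) ^ p = AdjoinRoot.root f + AdjoinRoot.of f r := by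
    have h1 := AdjoinRoot.eval₂_root f
    rw [hf] at h1
    simp only [eval₂_sub, eval₂_pow, eval₂_X, eval₂_add, eval₂_C] at h1
    exact sub_eq_zero.1 h1
  have hb1 : b 1 = 0 := by
    have := hb 1 1
    rw [mul_one, QuotientGroup.mk_one, map_one, AlgEquiv.one_apply] at this
    exact (left_eq_add.1 this)
  -- the homomorphisms
  have key : ∀ g : G, f.eval₂ (((IsScalarTower.toAlgHom k L A).comp
      (ρ (g : G ⧸ Subgroup.zpowers z) : L →ₐ[k] L)) : L →+* A)
      (AdjoinRoot.root f + AdjoinRoot.of f (b g)) = 0 := by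
    intro g
    have h1 : ∀ y : L, ((((IsScalarTower.toAlgHom k L A).comp
      (ρ (g : G ⧸ Subgroup.zpowers z) : L →ₐ[k] L)) : L →+* A)) y =
        AdjoinRoot.of f (ρ (g : G ⧸ Subgroup.zpowers z) y) := fun y => rfl
    have hE : ∀ (i : L →+* A) (y : A), eval₂ i y f = y ^ p - (y + i r) := by
      intro i y
      show eval₂ i y (X ^ p - (X + C r) : L[X]) = _
      rw [eval₂_sub, eval₂_pow, eval₂_X, eval₂_add, eval₂_C, eval₂_X]
    rw [hE, h1, add_pow_expChar, hY]
    have h2 : ρ (g : G ⧸ Subgroup.zpowers z) r = r + (b g ^ p - b g) := by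
      rw [← hr g]; ring
    rw [h2]
    simp only [map_add, map_sub, map_pow]
    ring
  let φ : G → (A →ₐ[k] A) := fun g => AdjoinRoot.liftAlgHom f
    ((IsScalarTower.toAlgHom k L A).comp (ρ (g : G ⧸ Subgroup.zpowers z) : L →ₐ[k] L))
    (AdjoinRoot.root f + AdjoinRoot.of f (b g)) (key g)
  have hφof : ∀ (g : G) (y : L), φ g (AdjoinRoot.of f y) =
      AdjoinRoot.of f (ρ (g : G ⧸ Subgroup.zpowers z) y) := by
    intro g y
    exact AdjoinRoot.liftAlgHom_of _ _ _ _ _
  have hφroot : ∀ g : G, φ g (AdjoinRoot.root f) = AdjoinRoot.root f + AdjoinRoot.of f (b g) := by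
    intro g
    exact AdjoinRoot.liftAlgHom_root _ _ _ _
  have hφmul : ∀ g h : G, φ (g * h) = φ g * φ h := by
    intro g h
    refine AdjoinRoot.algHom_ext' ?_ ?_
    · ext y
      show φ (g * h) (AdjoinRoot.of f y) = φ g (φ h (AdjoinRoot.of f y))
      rw [hφof, hφof, hφof, QuotientGroup.mk_mul, map_mul, AlgEquiv.mul_apply]
    · show φ (g * h) (AdjoinRoot.root f) = φ g (φ h (AdjoinRoot.root f))
      rw [hφroot, hφroot, map_add, hφroot, hφof, hb, map_add, add_assoc]
  have hφone : φ 1 = 1 := by
    refine AdjoinRoot.algHom_ext' ?_ ?_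
    · ext y
      show φ 1 (AdjoinRoot.of f y) = AdjoinRoot.of f y
      rw [hφof, QuotientGroup.mk_one, map_one, AlgEquiv.one_apply]
    · show φ 1 (AdjoinRoot.root f) = AdjoinRoot.root f
      rw [hφroot, hb1, map_zero, add_zero]
  let Φ : G →* (A →ₐ[k] A) := { toFun := φ, map_one' := hφone, map_mul' := hφmul }
  let ρ' : G →* (A ≃ₐ[k] A) := (AlgEquiv.algHomUnitsEquiv k A).toMonoidHom.comp Φ.toHomUnits
  have hρ' : ∀ (g : G) (y : A), ρ' g y = φ g y := fun g y => rfl
  have hbpow : ∀ n : ℕ, b (z ^ n) = n := by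
    intro n
    induction n with
    | zero => rw [pow_zero, hb1, Nat.cast_zero]
    | succ n ih => rw [pow_succ, hb, ih, hbz, map_one, Nat.cast_succ]
  refine ⟨A, inferInstance, inferInstance, IsScalarTower.toAlgHom k L A, AdjoinRoot.root f, ρ',
    ?_, ?_, ?_, ?_, ?_⟩
  · show AdjoinRoot.root f ^ p - AdjoinRoot.root f = AdjoinRoot.of f r
    rw [hY]; ring
  · intro g y
    rw [hρ']
    exact hφof g y
  · intro g
    rw [hρ']
    exact hφroot g
  · rw [injective_iff_map_eq_one]
    intro g hg
    have h1 : (g : G ⧸ Subgroup.zpowers z) = 1 := by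
      apply hρ
      rw [map_one]
      ext y
      have h2 : ρ' g (AdjoinRoot.of f y) = AdjoinRoot.of f y := by rw [hg]; rfl
      rw [hρ', hφof] at h2
      exact (AdjoinRoot.of f).injective h2
    have h3 : g ∈ Subgroup.zpowers z := (QuotientGroup.eq_one_iff g).1 h1
    rw [← mem_powers_iff_mem_zpowers] at h3
    obtain ⟨n, hn⟩ := h3
    have hn' : z ^ n = g := hn
    have h4 : ρ' g (AdjoinRoot.root f) = AdjoinRoot.root f := by rw [hg]; rfl
    rw [hρ', hφroot, add_eq_left] at h4
    have h5 : b g = 0 := (AdjoinRoot.of f).injective (by rw [h4, map_zero])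
    rw [← hn', hbpow, CharP.cast_eq_zero_iff L p] at h5
    rw [← hn']
    exact orderOf_dvd_iff_pow_eq_one.1 (by rw [hz]; exact h5)
  · intro x hx
    rw [hρ'] at hx
    obtain ⟨P, rfl⟩ := AdjoinRoot.mk_surjective x
    set R := P %ₘ f with hR
    have hPR : AdjoinRoot.mk f P = AdjoinRoot.mk f R := by
      rw [AdjoinRoot.mk_eq_mk]
      exact ⟨P /ₘ f, by rw [hR]; linear_combination (modByMonic_add_div P f).symm⟩
    have hRd : R.natDegree < p := by
      rw [← hd]
      exact natDegree_modByMonic_lt P hm (by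
        intro h1
        rw [h1] at hd
        rw [natDegree_one] at hd
        exact hp.ne_zero hd.symm)
    rw [hPR] at hx ⊢
    have hz1 : (z : G ⧸ Subgroup.zpowers z) = 1 :=
      (QuotientGroup.eq_one_iff z).2 (Subgroup.mem_zpowers z)
    have h1 : φ z (AdjoinRoot.mk f R) = AdjoinRoot.mk f (R.comp (X + C 1)) := by
      have h2 : φ z (AdjoinRoot.mk f R) = R.eval₂ (((IsScalarTower.toAlgHom k L A).comp
          (ρ (z : G ⧸ Subgroup.zpowers z) : L →ₐ[k] L)) : L →+* A)
          (AdjoinRoot.root f + AdjoinRoot.of f (b z)) := AdjoinRoot.liftAlgHom_mk _ _ _ _ _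
      rw [h2, hbz, comp, hom_eval₂]
      have e1 : (((IsScalarTower.toAlgHom k L A).comp
          (ρ (z : G ⧸ Subgroup.zpowers z) : L →ₐ[k] L)) : L →+* A) =
          (AdjoinRoot.mk f).comp C := by
        ext y
        show AdjoinRoot.of f (ρ (z : G ⧸ Subgroup.zpowers z) y) = AdjoinRoot.mk f (C y)
        rw [hz1, map_one, AlgEquiv.one_apply]
        rfl
      rw [e1]
      congr 1
    rw [h1, AdjoinRoot.mk_eq_mk] at hx
    have h3 : R.comp (X + C 1) - R = 0 := by
      by_contra hne
      have h4 := natDegree_le_of_dvd hx hne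
      have h5 : (R.comp (X + C 1)).natDegree = R.natDegree := by
        rw [natDegree_comp, natDegree_X_add_C, mul_one]
      have h6 := natDegree_sub_le (R.comp (X + C 1)) R
      rw [h5, max_self] at h6
      omega
    have h7 : R.comp (X + C 1) = R := sub_eq_zero.1 h3
    have h8 : ∀ n : ℕ, R.eval (n : L) = R.eval 0 := by
      intro n
      induction n with
      | zero => rw [Nat.cast_zero]
      | succ n ih =>
        rw [← ih]
        conv_rhs => rw [← h7]
        rw [eval_comp, eval_add, eval_X, eval_C, Nat.cast_succ]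
    have h9 : R - C (R.eval 0) = 0 := by
      refine eq_zero_of_natDegree_lt_card_of_eval_eq_zero _ (f := fun i : Fin p => ((i : ℕ) : L))
        ?_ ?_ ?_
      · intro i j hij
        exact Fin.ext (CharP.natCast_injOn_Iio L p i.2 j.2 hij)
      · intro i
        rw [eval_sub, eval_C, h8, sub_self]
      · rw [natDegree_sub_C, Fintype.card_fin]
        exact hRd
    refine ⟨R.eval 0, ?_⟩
    have h10 : AdjoinRoot.mk f R = AdjoinRoot.mk f (C (R.eval 0)) :=
      congrArg _ (sub_eq_zero.1 h9)
    rw [h10]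
    rfl

end Pool.CND
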